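import Mathlib
import Pool.Agent.Helper39.KZ.Stmts

set_option autoImplicit false

open Metric Set Polynomial

namespace KZ
namespace Low

/-- mean value property on a smaller circle -/
theorem av_mean {r : ℝ} (h0 : 0 < r) (h1 : r < 1) {f : ℂ → ℂ}
    (hf : DifferentiableOn ℂ f (ball 0 1)) : av r f = f 0 := by
  have hsub : closedBall (0 : ℂ) |r| ⊆ ball 0 1 := by
    rw [abs_of_pos h0]
    exact closedBall_subset_ball h1
  have hd : DiffContOnCl ℂ f (ball 0 |r|) := (hf.mono hsub).diffContOnCl_ball subset_rfl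
  exact hd.circleAverage

theorem ci {E : Type*} [NormedAddCommGroup E] {r : ℝ} (h0 : 0 < r) {f : ℂ → E}
    (hf : ContinuousOn f (sphere 0 r)) : CircleIntegrable f 0 r :=
  hf.circleIntegrable h0.le

theorem cont_ball {r : ℝ} (h1 : r < 1) {f : ℂ → ℂ}
    (hf : DifferentiableOn ℂ f (ball 0 1)) : ContinuousOn f (sphere 0 r) :=
  hf.continuousOn.mono (fun z hz => by
    simp only [mem_sphere_iff_norm, sub_zero] at hz
    simp [hz, h1])

theorem av_re {r : ℝ} {f : ℂ → ℂ} (hf : CircleIntegrable f 0 r) :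
    av r (fun t => (f t).re) = (av r f).re := by
  have := Complex.reCLM.circleAverage_comp_comm hf
  simpa [Function.comp_def] using this

theorem av_congr {E : Type*} [NormedAddCommGroup E] [NormedSpace ℝ E] {r : ℝ} (h0 : 0 < r)
    {f g : ℂ → E} (h : ∀ t ∈ sphere (0 : ℂ) r, f t = g t) : av r f = av r g := by
  apply Real.circleAverage_congr_sphere
  intro t ht
  rw [abs_of_pos h0] at ht
  exact h t ht

/-- one step: adding a term orthogonal to everything -/
theorem step {r : ℝ} (h0 : 0 < r) (h1 : r < 1) {P : ℂ → ℂ} (hP : ContinuousOn P (sphere 0 r))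
    (a : ℂ) (N : ℕ) (B : ℂ → ℂ) (hB : DifferentiableOn ℂ B (ball 0 1)) (hB0 : B 0 = 0)
    (hPB : ∀ t ∈ sphere (0 : ℂ) r, t ^ N * P t = B t) :
    av r (fun t => ‖a * t⁻¹ ^ N + P t‖ ^ 2) =
      ‖a‖ ^ 2 * r⁻¹ ^ (2 * N) + av r (fun t => ‖P t‖ ^ 2) := by
  have hne : ∀ t ∈ sphere (0 : ℂ) r, t ≠ 0 := by
    intro t ht h
    rw [mem_sphere_iff_norm, sub_zero, h, norm_zero] at ht
    exact h0.ne ht
  have key : ∀ t ∈ sphere (0 : ℂ) r, ‖a * t⁻¹ ^ N + P t‖ ^ 2 =
      (‖a‖ ^ 2 * r⁻¹ ^ (2 * N) + ‖P t‖ ^ 2) +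
        (2 * (r⁻¹ ^ (2 * N) : ℝ) * (starRingEnd ℂ) a * B t).re := by
    intro t ht
    have hn : ‖t‖ = r := by simpa using ht
    have htne := hne t ht
    have e1 : (starRingEnd ℂ) (t⁻¹) = ((r⁻¹ ^ 2 : ℝ) : ℂ) * t := by
      have h2 : t * (starRingEnd ℂ) t = ((r ^ 2 : ℝ) : ℂ) := by
        rw [Complex.mul_conj, Complex.normSq_eq_norm_sq, hn]
      have h3 : (starRingEnd ℂ) t ≠ 0 := by simpa using htne
      rw [map_inv₀]
      have hr : ((r : ℝ) : ℂ) ≠ 0 := by exact_mod_cast h0.ne'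
      push_cast at h2 ⊢
      field_simp
      linear_combination (-1 : ℂ) * h2
    have e2 : ‖a * t⁻¹ ^ N‖ ^ 2 = ‖a‖ ^ 2 * r⁻¹ ^ (2 * N) := by
      rw [norm_mul, norm_pow, norm_inv, hn, mul_pow, ← pow_mul, mul_comm N 2]
    have e3 : ‖a * t⁻¹ ^ N + P t‖ ^ 2 = ‖a * t⁻¹ ^ N‖ ^ 2 + ‖P t‖ ^ 2 +
        2 * ((starRingEnd ℂ) (a * t⁻¹ ^ N) * P t).re := by
      have := @norm_add_sq ℂ ℂ _ _ _ (a * t⁻¹ ^ N) (P t)
      rw [this]
      simp only [RCLike.inner_apply, RCLike.re_to_complex]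
      rw [mul_comm (P t)]
      ring
    have e4 : (starRingEnd ℂ) (a * t⁻¹ ^ N) * P t =
        ((r⁻¹ ^ (2 * N) : ℝ) : ℂ) * (starRingEnd ℂ) a * B t := by
      rw [← hPB t ht, map_mul, map_pow, e1, mul_pow]
      push_cast
      rw [pow_mul]
      ring
    rw [e3, e2, e4]
    have e5 : (2 * ((r⁻¹ ^ (2 * N) : ℝ) : ℂ) * (starRingEnd ℂ) a * B t) =
      ((2 : ℝ) : ℂ) * (((r⁻¹ ^ (2 * N) : ℝ) : ℂ) * (starRingEnd ℂ) a * B t) := by
      push_cast; ring
    rw [e5, Complex.re_ofReal_mul]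
  rw [av_congr h0 key]
  have c1 : ContinuousOn (fun t => ‖a‖ ^ 2 * r⁻¹ ^ (2 * N) + ‖P t‖ ^ 2) (sphere (0 : ℂ) r) :=
    continuousOn_const.add (hP.norm.pow 2)
  have hD : DifferentiableOn ℂ (fun t => 2 * ((r⁻¹ ^ (2 * N) : ℝ) : ℂ) * (starRingEnd ℂ) a * B t)
      (ball 0 1) := hB.const_mul _
  have c2 := cont_ball h1 hD
  have c3 : ContinuousOn (fun t => (2 * ((r⁻¹ ^ (2 * N) : ℝ) : ℂ) * (starRingEnd ℂ) a * B t).re)
      (sphere (0 : ℂ) r) := Complex.continuous_re.comp_continuousOn c2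
  rw [av, Real.circleAverage_fun_add (ci h0 c1) (ci h0 c3)]
  have m2 := av_re (ci h0 c2)
  have m3 := av_mean h0 h1 hD
  rw [m3, hB0] at m2
  simp only [mul_zero, Complex.zero_re] at m2
  simp only [av] at m2
  have c4 : ContinuousOn (fun t => ‖P t‖ ^ 2) (sphere (0 : ℂ) r) := hP.norm.pow 2
  rw [m2, add_zero, Real.circleAverage_fun_add (ci h0 continuousOn_const) (ci h0 c4),
    Real.circleAverage_const]

end Low

/-- LOW: orthogonality on the circle -/
theorem st_LOW : ST_LOW := by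
  intro r h0 h1 N c v R hR hR0
  have hne : ∀ t ∈ sphere (0 : ℂ) r, t ≠ 0 := by
    intro t ht h
    rw [mem_sphere_iff_norm, sub_zero, h, norm_zero] at ht
    exact h0.ne ht
  have cR := Low.cont_ball h1 hR
  induction N with
  | zero =>
    have := Low.step h0 h1 cR c 0 R hR hR0 (fun t _ => by simp)
    simpa using this
  | succ N ih =>
    have cont : ContinuousOn (fun t => c + ∑ k ∈ Finset.Icc 1 N, v k * t⁻¹ ^ k + R t)
        (sphere 0 r) := by
      apply ContinuousOn.add _ cR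
      apply ContinuousOn.add continuousOn_const
      apply continuousOn_finsetSum
      intro k _
      apply ContinuousOn.mul continuousOn_const
      exact (continuousOn_id.inv₀ (fun t ht => hne t ht)).pow k
    have hB : DifferentiableOn ℂ (fun t : ℂ => c * t ^ (N + 1) +
        ∑ k ∈ Finset.Icc 1 N, v k * t ^ (N + 1 - k) + t ^ (N + 1) * R t) (ball 0 1) := by
      apply DifferentiableOn.add
      · apply Differentiable.differentiableOn
        fun_prop
      · exact (differentiable_pow _).differentiableOn.mul hR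
    have hB0 : (fun t : ℂ => c * t ^ (N + 1) +
        ∑ k ∈ Finset.Icc 1 N, v k * t ^ (N + 1 - k) + t ^ (N + 1) * R t) 0 = 0 := by
      simp only [hR0, mul_zero, add_zero, ne_eq, Nat.add_eq_zero_iff, one_ne_zero, and_false,
        not_false_eq_true, zero_pow, zero_add]
      apply Finset.sum_eq_zero
      intro k hk
      rw [Finset.mem_Icc] at hk
      rw [zero_pow (by omega), mul_zero]
    have hPB : ∀ t ∈ sphere (0 : ℂ) r, t ^ (N + 1) *
        (fun t => c + ∑ k ∈ Finset.Icc 1 N, v k * t⁻¹ ^ k + R t) t =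
        (fun t : ℂ => c * t ^ (N + 1) +
        ∑ k ∈ Finset.Icc 1 N, v k * t ^ (N + 1 - k) + t ^ (N + 1) * R t) t := by
      intro t ht
      have htne := hne t ht
      simp only
      rw [mul_add, mul_add, Finset.mul_sum, mul_comm c]
      congr 2
      apply Finset.sum_congr rfl
      intro k hk
      rw [Finset.mem_Icc] at hk
      have : t ^ (N + 1) = t ^ (N + 1 - k) * t ^ k := by
        rw [← pow_add]; congr 1; omega
      rw [this, inv_pow]
      field_simp
    have := Low.step h0 h1 cont (v (N + 1)) (N + 1) _ hB hB0 hPB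
    rw [ih] at this
    have e : ∀ t ∈ sphere (0 : ℂ) r,
        ‖c + ∑ k ∈ Finset.Icc 1 (N + 1), v k * t⁻¹ ^ k + R t‖ ^ 2 =
        ‖v (N + 1) * t⁻¹ ^ (N + 1) + (c + ∑ k ∈ Finset.Icc 1 N, v k * t⁻¹ ^ k + R t)‖ ^ 2 := by
      intro t _
      rw [Finset.sum_Icc_succ_top (by omega)]
      congr 2
      ring
    rw [Low.av_congr h0 e, this, Finset.sum_Icc_succ_top (by omega)]
    ring

end KZ
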